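import Pool.Agent.N202.NC.MainD

/-!
# Conjugates of Hodge classes: the fourth power decides

`X` is a smooth projective complex variety, `σ` an automorphism of `ℂ`, `P`, `P'` are the polarised
Hodge structures `H(X, ℚ)`, `H(X_σ, ℚ)`, `e` is the matrix of the comparison `w ↦ w_σ` of de Rham
cohomology (`L = ℂ`) or étale cohomology (`L = ℚ_ℓ`), `c` the factor for the Tate twist.  Assume that
`X` has no CM part (the centre of the algebra of endomorphisms of `P` is totally real).

* If the conjugates of the Hodge classes on `X^4` are `L`-linear combinations of Hodge classes on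
  `X_σ^4`, this is true for all powers `X^n`.
* If they are combinations with coefficients in a number field (for example: if the Hodge classes
  on `X^4` are absolute Hodge for `σ`), then there is a number field `F` such that for all `n` the
  conjugates of the Hodge classes on `X^n` are `F`-linear combinations of Hodge classes on `X_σ^n`.
-/

namespace Pool.Agent.Results.MP_e2e4f5_ag.FourthPowerConjugates

open Pool.Agent.N202.NC

theorem result (ι : Type) [Fintype ι] [DecidableEq ι] (P P' : HodgeStructure ι) (L : Type)
    [Field L] [CharZero L] (e : Matrix ι ι L) (c : L) :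
    IsComparison P P' e c → P.NoCM →
    (BecomeHodge P P' e c ⊤ 4 → ∀ n, 0 < n → BecomeHodge P P' e c ⊤ n) ∧
    ((∃ F : IntermediateField ℚ L, FiniteDimensional ℚ F ∧ BecomeHodge P P' e c F 4) →
      ∃ F : IntermediateField ℚ L, FiniteDimensional ℚ F ∧
        ∀ n, 0 < n → BecomeHodge P P' e c F n) := by
  intro h hP
  refine ⟨fun h4 n hn => ?_, fun ⟨F, hF, h4⟩ => main2 hP h F hF h4⟩
  cases n with
  | zero => exact absurd hn (lt_irrefl 0)
  | succ n => exact fun j a ha => (top_iff _ _).2 (main1 hP h h4 ha)

end Pool.Agent.Results.MP_e2e4f5_ag.FourthPowerConjugates
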