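import Pool.Agent.N211.SM.AHFin

/-!
# Conjugates of Hodge classes: the product of a small power with a CM abelian variety decides

`X` is a smooth projective complex variety, `σ` an automorphism of `ℂ`, `P` and `Q` are the polarised
Hodge structures `H(X, ℚ)` and `H(X_σ, ℚ)`, `e` is the matrix of the comparison `w ↦ w_σ` of de Rham
cohomology (`L = ℂ`) or étale cohomology (`L = ℚ_ℓ`), and `c` is the factor for the Tate twist. `A` is
an abelian variety with complex multiplication such that the determinants of the images of the
idempotents of the centre of the algebra of endomorphisms of the Hodge structure `H(X)` have duals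
in `H(A, ℂ)` (these determinants are Hodge structures of rank one over CM fields or totally real
fields, so such an `A` exists for every `X`); `P'`, `Q'`, `e'` are the same data for `A`. By Deligne's
theorem the conjugates of the Hodge classes on the powers of `A` are Hodge classes. Let `K ≥ 4` be at
least as large as every Betti number `b_m(X)`.

* If the conjugates of the Hodge classes on `X^K × A` are `L`-linear combinations of Hodge classes on
  the conjugate variety, this is true for all powers `X^n`.
* If they are combinations with coefficients in a number field (for example, if the conjugates are
  Hodge classes), then there is a number field `F` such that for all `n` the conjugates of the Hodge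
  classes on `X^n` are `F`-linear combinations of Hodge classes on `X_σ^n`.

The proof. Let `h` be the Lie algebra of the Hodge group of `X × A`. A matrix `y` of `V = H(X, L)`
which kills the Hodge classes on `X^4` is, up to an element of `h`, in the centre of the algebra of
endomorphisms of `V` (the orthogonal projector to the derived algebra of `h`, for the trace form, is
given by Hodge classes on `X^4`). If moreover `(y, y')` kills the Hodge classes on `X^K × A` and on
the powers of `A`, then the products of the determinants with their duals and the Hodge classes on
the powers of `A` show that `y` kills the Hodge classes on all powers of `X`. This is applied to the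
conjugates `e⁻¹ z e` of the elements `z` of the Lie algebra of the Hodge group of `X_σ × A_σ` (part
1), and to the logarithmic derivatives of `e` for the derivations of the field `L` (part 2).
-/

namespace Pool.Agent.Results.MP_e2e4f5_ag.ProductConjugates

open Pool.Agent.N202.NC Pool.Agent.N211.SM

/-- **The conjugates of the Hodge classes on all powers of `X` from the product `X^K × A`.** -/
theorem result (ι ι' : Type) [Fintype ι] [DecidableEq ι] [Fintype ι'] [DecidableEq ι']
    (P Q : HodgeStructure ι) (P' Q' : HodgeStructure ι') (L : Type) [Field L] [CharZero L]
    (j : L →+* ℂ) (e : Matrix ι ι L) (e' : Matrix ι' ι' L) (c : L) (K : ℕ) :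
    IsComparison P Q e c → IsComparison P' Q' e' c → 4 ≤ K → (∀ m, betti P.deg m ≤ K) →
    HasHodgeDuals P P' → (∀ n, 0 < n → BecomeHodge P' Q' e' c ⊥ n) →
    (BecomeHodgeOn P Q P' Q' e e' c ⊤ K → ∀ n, 0 < n → BecomeHodge P Q e c ⊤ n) ∧
    ((∃ F : IntermediateField ℚ L, FiniteDimensional ℚ F ∧
        BecomeHodgeOn P Q P' Q' e e' c F K) →
      ∃ F : IntermediateField ℚ L, FiniteDimensional ℚ F ∧
        ∀ n, 0 < n → BecomeHodge P Q e c F n) :=
  fun h h' hK hK' hd hA => product_conjugates P Q P' Q' L j e e' c K hK hK' hd h h' hA

end Pool.Agent.Results.MP_e2e4f5_ag.ProductConjugates
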